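import Pool.Agent.Q46.SL.Tools
import Pool.Agent.H381R2.HR.Main
import Pool.Agent.Q46.SL.Additive

/-!
# Windows with more than `π(y)` almost primes at the unknowns of additive equations

Is `π(y) - ρ(y) → ∞`, where `ρ(y)` is the largest number of primes in infinitely many windows of length `y`? The prime
`k`-tuples conjecture implies the opposite, `ρ(y) - π(y) → ∞` (Hensley, Richards). We prove the opposite for ALMOST PRIMES at
the unknowns of additive equations modulo primes, with lower bounds of the expected order (up to a power of the logarithm): for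
every large `y` the equation `F_1(x_1) + ... + F_n(x_n) = c` over the field with `p` elements, each `F_j` a polynomial of degree
`2 ≤ deg ≤ d`, an exponential function or a reciprocal, has many solutions in every box of volume at least `p ^ (n / 2 + 1 + ε)`
such that EACH of the windows `[x_j, x_j + y)` contains at least `π(y) + α y log log log y / (log y) ^ 2` (`α < 1 / 2`) integers
with a bounded number of prime factors, all larger than a power of `p`.

Design and proof: helper46 (modules `Pool.Agent.Q46.SV.*`, `Pool.Agent.Q46.SL.*`): the vectors of the residues in question are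
equidistributed modulo all small integers with a power saving, by bounds for exponential sums; the fundamental lemma of the
sieve is applied to the vectors.
-/

set_option autoImplicit false

namespace Pool.Agent.Results.MP_5046ca_nt.CrowdedWindowsAdditiveEquations

open Finset Polynomial
open Pool.Agent.Q46.SL hiding Almost

/-- `n` is not zero and has at most `R` prime factors (counted with multiplicity), all larger than `z` -/
def Almost (z : ℝ) (R : ℕ) (n : ℤ) : Prop :=
  n ≠ 0 ∧ n.natAbs.primeFactorsList.length ≤ R ∧ ∀ q : ℕ, q.Prime → (q : ℤ) ∣ n → z < q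

/-- `x` is positive, all `x + t_j` have at most `R` prime factors, all larger than `z`, and `x` avoids the classes `E q`, `q ≤ z` -/
def Good {l : ℕ} (t : Fin l → ℤ) (z : ℝ) (R : ℕ) (E : ℕ → Finset ℕ) (x : ℤ) : Prop :=
  0 < x ∧ (∀ j, Almost z R (x + t j)) ∧ ∀ q : ℕ, q.Prime → (q : ℝ) ≤ z → (x % q).toNat ∉ E q

/-- `E q` has at most `m` elements, and some residue `a` outside `E q` has `q ∤ a + t_j` for all `j` -/
def Adm {l : ℕ} (t : Fin l → ℤ) (m : ℕ) (E : ℕ → Finset ℕ) : Prop :=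
  ∀ q : ℕ, q.Prime → (E q).card ≤ m ∧ ∃ a < q, a ∉ E q ∧ ∀ j, ¬ (q : ℤ) ∣ a + t j

/-- the polynomials and the classes -/
noncomputable def sysE {l : ℕ} (t : Fin l → ℤ) (m : ℕ) (E : ℕ → Finset ℕ) (hE : Adm t m E) : PE l m l where
  f := fun j => X + C (t j)
  E := E
  deg := by
    have h1 : ∀ j : Fin l, (X + C (t j) : ℤ[X]).natDegree ≤ 1 := fun j => by compute_degree
    refine (sum_le_sum fun j _ => h1 j).trans ?_
    simp
  adm := by
    intro q hq
    obtain ⟨h1, a, ha, haE, h2⟩ := hE q hq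
    refine ⟨h1, a, ha, haE, fun j => ?_⟩
    simpa using h2 j

lemma good_of {l : ℕ} {t : Fin l → ℤ} {m B : ℕ} {E : ℕ → Finset ℕ} (hE : Adm t m E) {κ M : ℝ} (hM : (2 : ℝ) ≤ M)
    (hh : ∀ j, |(t j : ℝ)| ≤ M ^ B) {x : ℤ} (hN : Near (B + 1) (sysE t m E hE) κ M x) (hx : (x : ℝ) ≤ M) :
    Good t (M ^ κ) ⌊(((B + 1) : ℕ) + (l : ℕ) + 1 : ℝ) / κ⌋₊ E x := by
  obtain ⟨h0, h12⟩ := hN
  obtain ⟨h1, h2⟩ := h12 (by
    intro j
    have hB : (1 : ℝ) ≤ M ^ B := one_le_pow₀ (by linarith)
    refine cb_mono (cb_add cb_X (cb_C (t j))) ?_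
    rw [pow_succ]
    have := hh j
    nlinarith) hx
  refine ⟨h0, fun j => ?_, h2⟩
  simpa [sysE, Almost, Pool.Agent.Q46.SL.Almost] using h1 j

/-- the terms: polynomials `f(x)`, exponentials `c g^x`, reciprocals `c x⁻¹` -/
inductive Term (p : ℕ) : Type
  | poly (f : (ZMod p)[X]) : Term p
  | exp (c g : (ZMod p)ˣ) : Term p
  | inv (c : (ZMod p)ˣ) : Term p

/-- the period: `p`, or the multiplicative order of `g` -/
noncomputable def Term.period {p : ℕ} : Term p → ℕ
  | .poly _ => p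
  | .exp _ g => orderOf g
  | .inv _ => p

/-- the value at the natural number `x` (the reciprocal of `0` is `0`) -/
noncomputable def Term.value {p : ℕ} [Fact p.Prime] : Term p → ℕ → ZMod p
  | .poly f, x => f.eval (x : ZMod p)
  | .exp c g, x => (c : ZMod p) * (g : ZMod p) ^ x
  | .inv c, x => (c : ZMod p) * (x : ZMod p)⁻¹

/-- the degrees of the polynomials are between `2` and `d` -/
def Term.Ok {p : ℕ} (d : ℕ) : Term p → Prop
  | .poly f => 2 ≤ f.natDegree ∧ f.natDegree ≤ d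
  | .exp _ _ => True
  | .inv _ => True

/-- Auxiliary theorem: all patterns `t` without local obstruction, for all unknowns of additive equations. -/
theorem pattern (l B m : ℕ) (n d : ℕ) (ε : ℝ) (hε : 0 < ε) (hε1 : ε ≤ 1) :
    ∃ κ : ℝ, 0 < κ ∧ ∃ cc : ℝ, 0 < cc ∧ ∃ R p₀ : ℕ, ∀ p : ℕ, p₀ ≤ p → ∀ [Fact p.Prime], ∀ t : Fin l → ℤ, (∀ j, |(t j : ℝ)| ≤ (p : ℝ) ^ B) → ∀ E : ℕ → Finset ℕ, Adm t m E → ∀ (F : Fin n → Term p), (∀ j, (F j).Ok d) → ∀ (c : ZMod p) (A N : Fin n → ℕ),
      (∀ j, A j + N j ≤ (F j).period) → (∀ j, (p : ℝ) ^ ε ≤ N j) →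
      (p : ℝ) ^ ((n : ℝ) / 2 + 1 + ε) ≤ ∏ j, (N j : ℝ) →
      ∃ G : Finset (Fin n → ℕ), cc * ((∏ j, (N j : ℝ)) / p) / Real.log p ^ (n * (m + l)) ≤ G.card ∧
        ∀ x ∈ G, (∀ j, A j ≤ x j ∧ x j < A j + N j) ∧ ∑ j, (F j).value (x j) = c ∧
          ∀ j, Good t ((p : ℝ) ^ κ) R E (x j) := by
  classical
  have hK : (1 : ℝ) ≤ d + 3 := by
    have : (0 : ℝ) ≤ d := Nat.cast_nonneg _
    linarith
  obtain ⟨κ, hκ, cc, hcc, p₀, h⟩ := Pool.Agent.Q46.SL.additive (Near (B + 1) : PE l m l → ℝ → ℝ → ℤ → Prop)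
    (lg (m + l)) (fun r _ => csN l m l (B + 1) r) n (d + 3) hK ε hε hε1
  refine ⟨κ, hκ, cc, hcc, ⌊(((B + 1) : ℕ) + (l : ℕ) + 1 : ℝ) / κ⌋₊, max 2 (max p₀ (d + 1)), ?_⟩
  intro p hp _ t ht E hE F hF c A N hA hN hP
  have hpr : (2 : ℝ) ≤ p := by exact_mod_cast (le_max_left _ _).trans hp
  have hp0 : p₀ ≤ p := ((le_max_left _ _).trans (le_max_right _ _)).trans hp
  have hpD : d < p := lt_of_lt_of_le (Nat.lt_succ_self d) (((le_max_right _ _).trans (le_max_right _ _)).trans hp)
  have hpp : p.Prime := Fact.out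
  have hs0 : 0 ≤ Real.sqrt p := Real.sqrt_nonneg _
  have hD0 : (0 : ℝ) ≤ d := Nat.cast_nonneg _
  have hper : ∀ j, (F j).period ≤ p := fun j => by
      cases hj : F j with
      | poly f => exact le_rfl
      | exp c g => exact ord_le' g
      | inv c => exact le_rfl
  have key := h p hp0 (sysE t m E hE) (fun j => (F j).period) (fun j => (F j).value) c
    (fun j => by
      cases hj : F j with
      | poly f => exact hpp.one_lt.le
      | exp c g => exact orderOf_pos g
      | inv c => exact hpp.one_lt.le)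
    hper
    (fun j h hh t ht => by
      have hok := hF j
      cases hj : F j with
      | poly f =>
        rw [hj] at hok hh
        obtain ⟨h2, h3⟩ := hok
        have h4 := Pool.Agent.Q46.MH.SS_poly f h2 (lt_of_le_of_lt h3 hpD) h hh ht
        have h5 : (f.natDegree : ℝ) ≤ d := by exact_mod_cast h3
        refine le_trans h4 (mul_le_mul_of_nonneg_right (by linarith) hs0)
      | exp a g =>
        have h4 := Pool.Agent.Q46.MH.SS_exp a g h ht
        have h5 : (fun x : ℕ => ((a * g ^ x : (ZMod p)ˣ) : ZMod p)) = (Term.exp a g : Term p).value := by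
          funext x
          show ((a * g ^ x : (ZMod p)ˣ) : ZMod p) = (a : ZMod p) * (g : ZMod p) ^ x
          rw [Units.val_mul, Units.val_pow_eq_pow_val]
        rw [h5] at h4
        refine le_trans h4 ?_
        nlinarith
      | inv a =>
        rw [hj] at hh
        have h4 := Pool.Agent.Q46.MH.SS_inv a h hh ht
        refine le_trans h4 (mul_le_mul_of_nonneg_right (by linarith) hs0))
    A N hA hN hP
  refine ⟨_, le_trans (cnt le_rfl (div_nonneg (prod_nonneg fun _ _ => Nat.cast_nonneg _) (Nat.cast_nonneg _))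
    (log0 p) _ _) key, ?_⟩
  intro x hx
  unfold Pool.Agent.Q46.SL.goodR Pool.Agent.Q46.MH.sol at hx
  rw [mem_filter, mem_filter] at hx
  refine ⟨fun j => mem_Ico.1 (hx.2.1 j), hx.1.2, fun j => good_of hE hpr ht (hx.2.2 j) ?_⟩
  have h6 : A j ≤ x j ∧ x j < A j + N j := mem_Ico.1 (hx.2.1 j)
  have h7 := hA j
  have h8 := hper j
  exact_mod_cast (by omega : x j ≤ p)

/-- the lower bound `π(y) + α y log log log y / (log y) ^ 2` -/
noncomputable def bound (α : ℝ) (y : ℕ) : ℝ :=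
  (Nat.primeCounting y : ℝ) + α * (y * Real.log (Real.log (Real.log y)) / (Real.log y) ^ 2)

/-- `x` is positive and there are at least `π(y) + α y log log log y / (log y) ^ 2` integers `s` with `0 ≤ s < y` such that `x + s`
has at most `R` prime factors, all larger than `z` -/
def Crowded (α : ℝ) (y : ℕ) (z : ℝ) (R : ℕ) (x : ℤ) : Prop :=
  0 < x ∧ ∃ S : Finset ℤ, (∀ s ∈ S, 0 ≤ s ∧ s < y) ∧ bound α y ≤ S.card ∧ ∀ s ∈ S, Almost z R (x + s)

open Classical in
/-- an admissible set with many elements (the theorem of Hensley and Richards in the stronger form of helper381) -/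
lemma many (α : ℝ) (hα : α < 1 / 2) : ∃ y₀ : ℕ, ∀ y : ℕ, y₀ ≤ y → ∃ (l : ℕ) (t : Fin l → ℤ), l ≤ y ∧
    Adm t 0 (fun _ => ∅) ∧ (∀ j, |(t j : ℝ)| ≤ y) ∧
    ∀ (z : ℝ) (R : ℕ) (x : ℤ), Good t z R (fun _ => ∅) x → Crowded α y z R x := by
  obtain ⟨x0, h0⟩ := Pool.Agent.H381R2.HR.final hα
  refine ⟨⌈x0⌉₊, fun y hy => ?_⟩
  obtain ⟨S, -, hS, hadm, hcard⟩ := h0 y ((Nat.le_ceil x0).trans (by exact_mod_cast hy))
  set t : Fin S.card → ℤ := fun j => (S.equivFin.symm j : ℤ) with ht
  have hmem : ∀ j, t j ∈ S := fun j => (S.equivFin.symm j).2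
  have hsurj : ∀ s ∈ S, ∃ j, t j = s := fun s hs => ⟨S.equivFin ⟨s, hs⟩, by simp [ht]⟩
  refine ⟨S.card, t, ?_, ?_, ?_, ?_⟩
  · have h1 : S ⊆ (Finset.Ico (0 : ℤ) y) := fun s hs => by
      have := hS s hs
      rw [Finset.mem_Ico]
      exact ⟨this.1, by exact_mod_cast this.2⟩
    have h2 := Finset.card_le_card h1
    rw [Int.card_Ico] at h2
    omega
  · intro q hq
    obtain ⟨r, hr⟩ := hadm q hq
    have hqz : (0 : ℤ) < q := by exact_mod_cast hq.pos
    refine ⟨by simp, ((-r) % (q : ℤ)).toNat, ?_, by simp, fun j hd => ?_⟩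
    · have h2 := Int.emod_lt_of_pos (-r) hqz
      have h3 := Int.emod_nonneg (-r) hqz.ne'
      omega
    · apply hr (t j) (hmem j)
      rw [Int.toNat_of_nonneg (Int.emod_nonneg _ hqz.ne')] at hd
      have h2 := Int.dvd_self_sub_emod (x := -r) (m := (q : ℤ))
      have h3 := dvd_add h2 hd
      have h4 : -r - -r % (q : ℤ) + (-r % (q : ℤ) + t j) = t j - r := by ring
      rwa [h4] at h3
  · intro j
    have h2 := hS (t j) (hmem j)
    have h3 : (0 : ℝ) ≤ t j := by exact_mod_cast h2.1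
    rw [abs_of_nonneg h3]
    exact h2.2.le
  · intro z R x h
    refine ⟨h.1, S, fun s hs => ?_, ?_, ?_⟩
    · have h2 := hS s hs
      exact ⟨h2.1, by exact_mod_cast h2.2⟩
    · unfold bound
      rw [Nat.floor_natCast] at hcard
      exact hcard
    · intro s hs
      obtain ⟨j, rfl⟩ := hsurj s hs
      exact h.2.1 j

/-- **Main theorem**: for every large `y` all the unknowns `x` of many solutions of additive equations modulo primes are starting points
of windows `[x, x + y)` with more than `π(y) + α y log log log y / (log y) ^ 2` almost primes; the number of these solutions has the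
expected order up to a power of the logarithm. -/
theorem result (α : ℝ) (hα : α < 1 / 2) (n d : ℕ) (ε : ℝ) (hε : 0 < ε) (hε1 : ε ≤ 1) : ∃ y₀ : ℕ, ∀ y : ℕ, y₀ ≤ y →
    ∃ K : ℕ, K ≤ y ∧ ∃ κ : ℝ, 0 < κ ∧ ∃ cc : ℝ, 0 < cc ∧ ∃ R p₀ : ℕ, ∀ p : ℕ, p₀ ≤ p → ∀ [Fact p.Prime],
      ∀ (F : Fin n → Term p), (∀ j, (F j).Ok d) → ∀ (c : ZMod p) (A N : Fin n → ℕ),
      (∀ j, A j + N j ≤ (F j).period) → (∀ j, (p : ℝ) ^ ε ≤ N j) →
      (p : ℝ) ^ ((n : ℝ) / 2 + 1 + ε) ≤ ∏ j, (N j : ℝ) →
      ∃ G : Finset (Fin n → ℕ), cc * ((∏ j, (N j : ℝ)) / p) / Real.log p ^ (n * K) ≤ G.card ∧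
        ∀ x ∈ G, (∀ j, A j ≤ x j ∧ x j < A j + N j) ∧ ∑ j, (F j).value (x j) = c ∧
          ∀ j, Crowded α y ((p : ℝ) ^ κ) R (x j) := by
  obtain ⟨y₀, h0⟩ := many α hα
  refine ⟨y₀, fun y hy => ?_⟩
  obtain ⟨l, t, hly, hadm, hty, hcr⟩ := h0 y hy
  obtain ⟨κ, hκ, cc, hcc, R, p₀, h⟩ := pattern l 1 0 n d ε hε hε1
  refine ⟨l, hly, κ, hκ, cc, hcc, R, max p₀ y, ?_⟩
  intro p hp _ F hF c A N hA hN hP
  have hyp : (y : ℝ) ≤ p := by exact_mod_cast (le_max_right _ _).trans hp
  obtain ⟨G, hG, hG2⟩ := h p ((le_max_left _ _).trans hp) t (fun j => by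
    rw [pow_one]
    exact (hty j).trans hyp) (fun _ => ∅) hadm F hF c A N hA hN hP
  refine ⟨G, ?_, fun x hx => ?_⟩
  · simpa using hG
  · obtain ⟨a1, a2, a3⟩ := hG2 x hx
    exact ⟨a1, a2, fun j => hcr _ _ _ (a3 j)⟩

end Pool.Agent.Results.MP_5046ca_nt.CrowdedWindowsAdditiveEquations
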