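import Pool.Agent.Q46.IP.Tools
import Pool.Agent.H381R2.HR.Main
import Pool.Agent.Q46.SL.Hyp

/-!
# Windows with more than `π(y)` almost primes, isolated at the Rankin scale, on modular hyperbolas

Is `π(y) - ρ(y) → ∞`, where `ρ(y)` is the largest number of primes in infinitely many windows of length `y`? Hensley and
Richards showed that the prime `k`-tuples conjecture implies the opposite, `ρ(y) - π(y) → ∞`. We prove the opposite for ALMOST
PRIMES, in an exact form: for every large `y` there are infinitely many windows `[x, x + y)` with at least `π(y) + α y log log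
log y / (log y) ^ 2` (`α < 1 / 2`) integers with a bounded number of prime factors, all larger than a power of `x`, while all
the other integers in the window, and even all within the distance `κ rankin(p)` of `x`, have a prime factor `≤ log p`. Moreover
these windows occur at BOTH coordinates of many points of every modular hyperbola `x z ≡ c (mod p)`, in every box of area at
least `p ^ (3 / 2 + ε)`.

Design and proof: helper46 (modules `Pool.Agent.Q46.IP.*`, `Pool.Agent.Q46.SL.*`): the Rankin covering argument with holes at the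
pattern gives a modulus and a residue class in which everything else near the pattern is covered by the small primes; the sieve is
applied to the vectors of residues in this class, which are equidistributed with a power saving by bounds for exponential sums.
-/

set_option autoImplicit false

namespace Pool.Agent.Results.MP_5046ca_nt.CrowdedWindowsHyperbolas

open Finset Polynomial Filter
open Pool.Agent.Q46.SL hiding Almost
open Pool.Agent.Q46.IP (Lone csL evI sysT adm_pair adm_one lone_tuple lone_pair lone_one)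

/-- `n` is not zero and has at most `R` prime factors (counted with multiplicity), all larger than `z` -/
def Almost (z : ℝ) (R : ℕ) (n : ℤ) : Prop :=
  n ≠ 0 ∧ n.natAbs.primeFactorsList.length ≤ R ∧ ∀ q : ℕ, q.Prime → (q : ℤ) ∣ n → z < q

/-- Rankin's function `log M log₂ M log₄ M / (log₃ M) ^ 2` (iterated logarithms) -/
noncomputable def rankin (M : ℝ) : ℝ :=
  Real.log M * Real.log (Real.log M) * Real.log (Real.log (Real.log (Real.log M))) /
    (Real.log (Real.log (Real.log M))) ^ 2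

/-- modulo every prime some residue is different from all `-t_j` -/
def Adm {l : ℕ} (t : Fin l → ℤ) : Prop := ∀ q : ℕ, q.Prime → ∃ a < q, ∀ j, ¬ (q : ℤ) ∣ a + t j

/-- `x` is positive, all `x + t_j` have at most `R` prime factors, all larger than `M ^ κ`, and every other integer `x + i` with
`|i| ≤ κ rankin(M)` has a prime factor `≤ log M` -/
def Alone {l : ℕ} (t : Fin l → ℤ) (κ M : ℝ) (R : ℕ) (x : ℤ) : Prop :=
  0 < x ∧ (∀ j, Almost (M ^ κ) R (x + t j)) ∧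
    ∀ i : ℤ, |(i : ℝ)| ≤ κ * rankin M → (∀ j, i ≠ t j) → ∃ q : ℕ, q.Prime ∧ (q : ℝ) ≤ Real.log M ∧ (q : ℤ) ∣ x + i

/-- Auxiliary theorem: every pattern `t` without local obstruction occurs in complete isolation at both coordinates of many points of modular hyperbolas. -/
theorem pattern (l B : ℕ) (ε : ℝ) (hε : 0 < ε) (hε1 : ε ≤ 1) :
    ∃ κ : ℝ, 0 < κ ∧ ∃ R p₀ : ℕ, ∀ p : ℕ, p₀ ≤ p → p.Prime → ∀ t : Fin l → ℤ, Adm t → (∀ j, |(t j : ℝ)| ≤ Real.log p ^ B) → ∀ c : ℤ, ¬ (p : ℤ) ∣ c → ∀ A1 N1 A2 N2 : ℕ, A1 + N1 ≤ p → A2 + N2 ≤ p →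
      (p : ℝ) ^ (3 / 2 + ε) ≤ (N1 : ℝ) * N2 →
      ∃ G : Finset (ℕ × ℕ), ((N1 : ℝ) * N2 / p) * (p : ℝ) ^ (-ε) ≤ G.card ∧
        ∀ z ∈ G, (A1 ≤ z.1 ∧ z.1 < A1 + N1) ∧ (A2 ≤ z.2 ∧ z.2 < A2 + N2) ∧ (p : ℤ) ∣ z.1 * z.2 - c ∧
          Alone t κ p R z.1 ∧ Alone t κ p R z.2 := by
  obtain ⟨κ, hκ, cc, hcc, p₀, h⟩ := Pool.Agent.Q46.SL.hyperbola (Lone (B + 1) : PE l 0 l → ℝ → ℝ → ℤ → Prop)
    (fun k' M => M ^ (-(ε / (2 * (((2 : ℕ) : ℝ) + 1)) * k'))) (fun k' _ => csL l l (B + 1) (ε / (2 * (((2 : ℕ) : ℝ) + 1))) (by positivity) k') ε hε hε1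
  obtain ⟨p₁, hp₁8, hp₁, hp₂⟩ := evI hcc hε hκ 2
  refine ⟨κ, hκ, ⌊((l : ℝ) + 2) / κ⌋₊, max p₁ p₀, ?_⟩
  intro p hp hpp t hadm hts c hc A1 N1 A2 N2 hA1 hA2 hN
  have hpr : (p₁ : ℝ) ≤ p := by exact_mod_cast (le_max_left _ _).trans hp
  obtain ⟨G, hG, hG2⟩ := h p ((le_max_right _ _).trans hp) (sysT t hadm) hpp c hc A1 N1 A2 N2 hA1 hA2 hN
  refine ⟨G, le_trans (hp₁ _ hpr _ (by positivity)) hG, ?_⟩
  intro z hz
  obtain ⟨a1, a2, a3, a4, a5⟩ := hG2 z hz
  exact ⟨a1, a2, a3, lone_tuple hp₁8 hpr hts a4 (by exact_mod_cast (by omega : z.1 ≤ p)), lone_tuple hp₁8 hpr hts a5 (by exact_mod_cast (by omega : z.2 ≤ p))⟩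

/-- the lower bound `π(y) + α y log log log y / (log y) ^ 2` -/
noncomputable def bound (α : ℝ) (y : ℕ) : ℝ :=
  (Nat.primeCounting y : ℝ) + α * (y * Real.log (Real.log (Real.log y)) / (Real.log y) ^ 2)

/-- `x` is positive and there are at least `π(y) + α y log log log y / (log y) ^ 2` integers `s` with `0 ≤ s < y` such that `x + s`
has at most `R` prime factors, all larger than `M ^ κ`, while every integer `x + i` with `|i| ≤ κ rankin(M)` which is not one of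
these `x + s` has a prime factor `≤ log M` -/
def Crowded (α : ℝ) (y : ℕ) (κ M : ℝ) (R : ℕ) (x : ℤ) : Prop :=
  0 < x ∧ ∃ S : Finset ℤ, (∀ s ∈ S, 0 ≤ s ∧ s < y) ∧ bound α y ≤ S.card ∧ (∀ s ∈ S, Almost (M ^ κ) R (x + s)) ∧
    ∀ i : ℤ, |(i : ℝ)| ≤ κ * rankin M → i ∉ S → ∃ q : ℕ, q.Prime ∧ (q : ℝ) ≤ Real.log M ∧ (q : ℤ) ∣ x + i

open Classical in
/-- an admissible set with many elements (the theorem of Hensley and Richards in the stronger form of helper381) -/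
lemma many (α : ℝ) (hα : α < 1 / 2) : ∃ y₀ : ℕ, ∀ y : ℕ, y₀ ≤ y → ∃ (l : ℕ) (t : Fin l → ℤ), Adm t ∧
    (∀ j, |(t j : ℝ)| ≤ y) ∧ ∀ (κ M : ℝ) (R : ℕ) (x : ℤ), Alone t κ M R x → Crowded α y κ M R x := by
  obtain ⟨x0, h0⟩ := Pool.Agent.H381R2.HR.final hα
  refine ⟨⌈x0⌉₊, fun y hy => ?_⟩
  obtain ⟨S, -, hS, hadm, hcard⟩ := h0 y ((Nat.le_ceil x0).trans (by exact_mod_cast hy))
  set t : Fin S.card → ℤ := fun j => (S.equivFin.symm j : ℤ) with ht
  have hmem : ∀ j, t j ∈ S := fun j => (S.equivFin.symm j).2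
  have hsurj : ∀ s ∈ S, ∃ j, t j = s := fun s hs => ⟨S.equivFin ⟨s, hs⟩, by simp [ht]⟩
  refine ⟨S.card, t, ?_, ?_, ?_⟩
  · intro q hq
    obtain ⟨r, hr⟩ := hadm q hq
    have hqz : (0 : ℤ) < q := by exact_mod_cast hq.pos
    refine ⟨((-r) % (q : ℤ)).toNat, ?_, fun j hd => ?_⟩
    · have h2 := Int.emod_lt_of_pos (-r) hqz
      have h3 := Int.emod_nonneg (-r) hqz.ne'
      omega
    · apply hr (t j) (hmem j)
      rw [Int.toNat_of_nonneg (Int.emod_nonneg _ hqz.ne')] at hd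
      have h2 := Int.dvd_self_sub_emod (x := -r) (m := (q : ℤ))
      have h3 := dvd_add h2 hd
      have h4 : -r - -r % (q : ℤ) + (-r % (q : ℤ) + t j) = t j - r := by ring
      rwa [h4] at h3
  · intro j
    have h2 := hS (t j) (hmem j)
    have h3 : (0 : ℝ) ≤ t j := by exact_mod_cast h2.1
    rw [abs_of_nonneg h3]
    exact h2.2.le
  · intro κ M R x h
    refine ⟨h.1, S, fun s hs => ?_, ?_, ?_, ?_⟩
    · have h2 := hS s hs
      exact ⟨h2.1, by exact_mod_cast h2.2⟩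
    · unfold bound
      rw [Nat.floor_natCast] at hcard
      exact hcard
    · intro s hs
      obtain ⟨j, rfl⟩ := hsurj s hs
      exact h.2.1 j
    · intro i hi hiS
      exact h.2.2 i hi fun j hj => hiS (hj ▸ hmem j)

/-- **Main theorem**: for every large `y` the windows `[x, x + y)` with more than `π(y) + α y log log log y / (log y) ^ 2` almost primes,
isolated at the Rankin scale, occur at both coordinates of many points of all modular hyperbolas. -/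
theorem result (α : ℝ) (hα : α < 1 / 2) (ε : ℝ) (hε : 0 < ε) (hε1 : ε ≤ 1) : ∃ y₀ : ℕ, ∀ y : ℕ, y₀ ≤ y →
    ∃ κ : ℝ, 0 < κ ∧ ∃ R p₀ : ℕ, ∀ p : ℕ, p₀ ≤ p → p.Prime → ∀ c : ℤ, ¬ (p : ℤ) ∣ c → ∀ A1 N1 A2 N2 : ℕ,
      A1 + N1 ≤ p → A2 + N2 ≤ p → (p : ℝ) ^ (3 / 2 + ε) ≤ (N1 : ℝ) * N2 →
      ∃ G : Finset (ℕ × ℕ), ((N1 : ℝ) * N2 / p) * (p : ℝ) ^ (-ε) ≤ G.card ∧
        ∀ z ∈ G, (A1 ≤ z.1 ∧ z.1 < A1 + N1) ∧ (A2 ≤ z.2 ∧ z.2 < A2 + N2) ∧ (p : ℤ) ∣ z.1 * z.2 - c ∧
          Crowded α y κ p R z.1 ∧ Crowded α y κ p R z.2 := by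
  obtain ⟨y₀, h0⟩ := many α hα
  refine ⟨y₀, fun y hy => ?_⟩
  obtain ⟨l, t, hadm, hty, hcr⟩ := h0 y hy
  obtain ⟨κ, hκ, R, p₀, h⟩ := pattern l 1 ε hε hε1
  refine ⟨κ, hκ, R, max p₀ ⌈Real.exp y⌉₊, ?_⟩
  intro p hp hpp c hc A1 N1 A2 N2 hA1 hA2 hN
  have hy2 : (y : ℝ) ≤ Real.log p := by
    rw [Real.le_log_iff_exp_le (by exact_mod_cast hpp.pos)]
    exact (Nat.le_ceil _).trans (by exact_mod_cast (le_max_right _ _).trans hp)
  obtain ⟨G, hG, hG2⟩ := h p ((le_max_left _ _).trans hp) hpp t hadm (fun j => by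
    rw [pow_one]
    exact (hty j).trans hy2) c hc A1 N1 A2 N2 hA1 hA2 hN
  refine ⟨G, hG, fun z hz => ?_⟩
  obtain ⟨a1, a2, a3, a4, a5⟩ := hG2 z hz
  exact ⟨a1, a2, a3, hcr _ _ _ _ a4, hcr _ _ _ _ a5⟩

end Pool.Agent.Results.MP_5046ca_nt.CrowdedWindowsHyperbolas
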