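import Pool.Agent.Q46.IP.Tools
import Pool.Agent.H381R2.HR.Main
import Pool.Agent.Q46.SL.Sidon

/-!
# Windows with more than `π(y)` almost primes, isolated at the Rankin scale, in dense Sidon sets

Is `π(y) - ρ(y) → ∞`, where `ρ(y)` is the largest number of primes in infinitely many windows of length `y`? The prime
`k`-tuples conjecture implies the opposite, `ρ(y) - π(y) → ∞` (Hensley, Richards). We prove the opposite for ALMOST PRIMES: for
every large `y`, EVERY dense Sidon set `A` of vectors in `{1, ..., n} ^ r` (`|A|² ≥ n ^ r (1 - n ^ (-δ))`, for `r = 2` this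
includes all Costas arrays) has many members ALL of whose coordinates `x` are starting points of windows `[x, x + y)` with at
least `π(y) + α y log log log y / (log y) ^ 2` (`α < 1 / 2`) integers with a bounded number of prime factors, all larger than a
power of `n`, while all the other integers in the window, and even all within the distance `κ rankin(n)` of `x`, have a prime
factor `≤ log n`.

Design and proof: helper46 (modules `Pool.Agent.Q46.IP.*`, `Pool.Agent.Q46.SL.*`): the Rankin covering argument with holes at the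
pattern gives a modulus and a residue class in which everything else near the pattern is covered by the small primes; the sieve is
applied to the vectors of residues in this class, which are equidistributed with a power saving by bounds for exponential sums.
-/

set_option autoImplicit false

namespace Pool.Agent.Results.MP_5046ca_nt.CrowdedWindowsSidonSets

open Finset Polynomial Filter
open Pool.Agent.Q46.SL hiding Almost
open Pool.Agent.Q46.IP (Lone csL evI sysT adm_pair adm_one lone_tuple lone_pair lone_one)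

/-- `n` is not zero and has at most `R` prime factors (counted with multiplicity), all larger than `z` -/
def Almost (z : ℝ) (R : ℕ) (n : ℤ) : Prop :=
  n ≠ 0 ∧ n.natAbs.primeFactorsList.length ≤ R ∧ ∀ q : ℕ, q.Prime → (q : ℤ) ∣ n → z < q

/-- Rankin's function `log M log₂ M log₄ M / (log₃ M) ^ 2` (iterated logarithms) -/
noncomputable def rankin (M : ℝ) : ℝ :=
  Real.log M * Real.log (Real.log M) * Real.log (Real.log (Real.log (Real.log M))) /
    (Real.log (Real.log (Real.log M))) ^ 2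

/-- modulo every prime some residue is different from all `-t_j` -/
def Adm {l : ℕ} (t : Fin l → ℤ) : Prop := ∀ q : ℕ, q.Prime → ∃ a < q, ∀ j, ¬ (q : ℤ) ∣ a + t j

/-- `x` is positive, all `x + t_j` have at most `R` prime factors, all larger than `M ^ κ`, and every other integer `x + i` with
`|i| ≤ κ rankin(M)` has a prime factor `≤ log M` -/
def Alone {l : ℕ} (t : Fin l → ℤ) (κ M : ℝ) (R : ℕ) (x : ℤ) : Prop :=
  0 < x ∧ (∀ j, Almost (M ^ κ) R (x + t j)) ∧
    ∀ i : ℤ, |(i : ℝ)| ≤ κ * rankin M → (∀ j, i ≠ t j) → ∃ q : ℕ, q.Prime ∧ (q : ℝ) ≤ Real.log M ∧ (q : ℤ) ∣ x + i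

/-- Sidon sets of vectors of integers -/
def IsSidon {r : ℕ} (A : Finset (Fin r → ℤ)) : Prop :=
  ∀ a ∈ A, ∀ b ∈ A, ∀ c ∈ A, ∀ d ∈ A, a + b = c + d → (a = c ∧ b = d) ∨ (a = d ∧ b = c)

/-- Auxiliary theorem: every pattern `t` without local obstruction occurs in complete isolation at all coordinates of many members of every dense Sidon set. -/
theorem pattern (l B : ℕ) (r : ℕ) (hr : 1 ≤ r) (δ : ℝ) (hδ : 0 < δ) (ε : ℝ) (hε : 0 < ε) :
    ∃ κ : ℝ, 0 < κ ∧ ∃ R n₀ : ℕ, ∀ n : ℕ, n₀ ≤ n → ∀ t : Fin l → ℤ, Adm t → (∀ j, |(t j : ℝ)| ≤ Real.log n ^ B) → 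
      ∀ A : Finset (Fin r → ℤ), IsSidon A → (∀ a ∈ A, ∀ j, 1 ≤ a j ∧ a j ≤ n) →
        (n : ℝ) ^ r * (1 - (n : ℝ) ^ (-δ)) ≤ (A.card : ℝ) ^ 2 →
        ∃ G ⊆ A, (A.card : ℝ) * (n : ℝ) ^ (-ε) ≤ G.card ∧
          ∀ a ∈ G, ∀ j, Alone t κ n R (a j) := by
  classical
  obtain ⟨κ, hκ, cc, hcc, n₀, h⟩ := Pool.Agent.Q46.SL.sidon_main (Lone (B + 1) : PE l 0 l → ℝ → ℝ → ℤ → Prop)
    (fun k' M => M ^ (-(ε / (2 * (((r : ℕ) : ℝ) + 1)) * k'))) (fun k' _ => csL l l (B + 1) (ε / (2 * (((r : ℕ) : ℝ) + 1))) (by positivity) k') r hr (min δ (1 / 4)) (lt_min hδ (by norm_num)) (min_le_right _ _)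
  obtain ⟨p₁, hp₁8, hp₁, hp₂⟩ := evI hcc hε hκ r
  refine ⟨κ, hκ, ⌊((l : ℝ) + 2) / κ⌋₊, max p₁ (max n₀ 1), ?_⟩
  intro n hn t hadm hts A hA hAn hAc
  have hpr : (p₁ : ℝ) ≤ n := by exact_mod_cast (le_max_left _ _).trans hn
  have hn0 : n₀ ≤ n := ((le_max_left _ _).trans (le_max_right _ _)).trans hn
  have hn1 : (1 : ℝ) ≤ n := by exact_mod_cast ((le_max_right _ _).trans (le_max_right _ _)).trans hn
  have h1 : (n : ℝ) ^ (-δ) ≤ (n : ℝ) ^ (-(min δ (1 / 4))) :=
    Real.rpow_le_rpow_of_exponent_le hn1 (by linarith [min_le_left δ (1 / 4)])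
  have h2 : (n : ℝ) ^ r * (1 - (n : ℝ) ^ (-(min δ (1 / 4)))) ≤ (A.card : ℝ) ^ 2 :=
    (mul_le_mul_of_nonneg_left (by linarith) (by positivity)).trans hAc
  have key := h n hn0 (sysT t hadm) A hA hAn h2
  refine ⟨A.filter (fun v => ∀ j, Lone (B + 1) (sysT t hadm) κ n (v j)), filter_subset _ _,
    le_trans (hp₁ _ hpr _ (Nat.cast_nonneg _)) key, ?_⟩
  intro a ha j
  rw [mem_filter] at ha
  exact lone_tuple hp₁8 hpr hts (ha.2 j) (by exact_mod_cast (hAn a ha.1 j).2)

/-- the lower bound `π(y) + α y log log log y / (log y) ^ 2` -/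
noncomputable def bound (α : ℝ) (y : ℕ) : ℝ :=
  (Nat.primeCounting y : ℝ) + α * (y * Real.log (Real.log (Real.log y)) / (Real.log y) ^ 2)

/-- `x` is positive and there are at least `π(y) + α y log log log y / (log y) ^ 2` integers `s` with `0 ≤ s < y` such that `x + s`
has at most `R` prime factors, all larger than `M ^ κ`, while every integer `x + i` with `|i| ≤ κ rankin(M)` which is not one of
these `x + s` has a prime factor `≤ log M` -/
def Crowded (α : ℝ) (y : ℕ) (κ M : ℝ) (R : ℕ) (x : ℤ) : Prop :=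
  0 < x ∧ ∃ S : Finset ℤ, (∀ s ∈ S, 0 ≤ s ∧ s < y) ∧ bound α y ≤ S.card ∧ (∀ s ∈ S, Almost (M ^ κ) R (x + s)) ∧
    ∀ i : ℤ, |(i : ℝ)| ≤ κ * rankin M → i ∉ S → ∃ q : ℕ, q.Prime ∧ (q : ℝ) ≤ Real.log M ∧ (q : ℤ) ∣ x + i

open Classical in
/-- an admissible set with many elements (the theorem of Hensley and Richards in the stronger form of helper381) -/
lemma many (α : ℝ) (hα : α < 1 / 2) : ∃ y₀ : ℕ, ∀ y : ℕ, y₀ ≤ y → ∃ (l : ℕ) (t : Fin l → ℤ), Adm t ∧
    (∀ j, |(t j : ℝ)| ≤ y) ∧ ∀ (κ M : ℝ) (R : ℕ) (x : ℤ), Alone t κ M R x → Crowded α y κ M R x := by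
  obtain ⟨x0, h0⟩ := Pool.Agent.H381R2.HR.final hα
  refine ⟨⌈x0⌉₊, fun y hy => ?_⟩
  obtain ⟨S, -, hS, hadm, hcard⟩ := h0 y ((Nat.le_ceil x0).trans (by exact_mod_cast hy))
  set t : Fin S.card → ℤ := fun j => (S.equivFin.symm j : ℤ) with ht
  have hmem : ∀ j, t j ∈ S := fun j => (S.equivFin.symm j).2
  have hsurj : ∀ s ∈ S, ∃ j, t j = s := fun s hs => ⟨S.equivFin ⟨s, hs⟩, by simp [ht]⟩
  refine ⟨S.card, t, ?_, ?_, ?_⟩
  · intro q hq
    obtain ⟨r, hr⟩ := hadm q hq
    have hqz : (0 : ℤ) < q := by exact_mod_cast hq.pos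
    refine ⟨((-r) % (q : ℤ)).toNat, ?_, fun j hd => ?_⟩
    · have h2 := Int.emod_lt_of_pos (-r) hqz
      have h3 := Int.emod_nonneg (-r) hqz.ne'
      omega
    · apply hr (t j) (hmem j)
      rw [Int.toNat_of_nonneg (Int.emod_nonneg _ hqz.ne')] at hd
      have h2 := Int.dvd_self_sub_emod (x := -r) (m := (q : ℤ))
      have h3 := dvd_add h2 hd
      have h4 : -r - -r % (q : ℤ) + (-r % (q : ℤ) + t j) = t j - r := by ring
      rwa [h4] at h3
  · intro j
    have h2 := hS (t j) (hmem j)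
    have h3 : (0 : ℝ) ≤ t j := by exact_mod_cast h2.1
    rw [abs_of_nonneg h3]
    exact h2.2.le
  · intro κ M R x h
    refine ⟨h.1, S, fun s hs => ?_, ?_, ?_, ?_⟩
    · have h2 := hS s hs
      exact ⟨h2.1, by exact_mod_cast h2.2⟩
    · unfold bound
      rw [Nat.floor_natCast] at hcard
      exact hcard
    · intro s hs
      obtain ⟨j, rfl⟩ := hsurj s hs
      exact h.2.1 j
    · intro i hi hiS
      exact h.2.2 i hi fun j hj => hiS (hj ▸ hmem j)

/-- **Main theorem**: for every large `y` all the coordinates of many members of every dense Sidon set are starting points of windows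
`[x, x + y)` with more than `π(y) + α y log log log y / (log y) ^ 2` almost primes, isolated at the Rankin scale. -/
theorem result (α : ℝ) (hα : α < 1 / 2) (r : ℕ) (hr : 1 ≤ r) (δ : ℝ) (hδ : 0 < δ) (ε : ℝ) (hε : 0 < ε) :
    ∃ y₀ : ℕ, ∀ y : ℕ, y₀ ≤ y → ∃ κ : ℝ, 0 < κ ∧ ∃ R n₀ : ℕ, ∀ n : ℕ, n₀ ≤ n →
      ∀ A : Finset (Fin r → ℤ), IsSidon A → (∀ a ∈ A, ∀ j, 1 ≤ a j ∧ a j ≤ n) →
        (n : ℝ) ^ r * (1 - (n : ℝ) ^ (-δ)) ≤ (A.card : ℝ) ^ 2 →
        ∃ G ⊆ A, (A.card : ℝ) * (n : ℝ) ^ (-ε) ≤ G.card ∧ ∀ a ∈ G, ∀ j, Crowded α y κ n R (a j) := by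
  obtain ⟨y₀, h0⟩ := many α hα
  refine ⟨max y₀ 1, fun y hy => ?_⟩
  obtain ⟨l, t, hadm, hty, hcr⟩ := h0 y ((le_max_left _ _).trans hy)
  obtain ⟨κ, hκ, R, n₀, h⟩ := pattern l 1 r hr δ hδ ε hε
  refine ⟨κ, hκ, R, max n₀ ⌈Real.exp y⌉₊, ?_⟩
  intro n hn A hA hAn hAc
  have hn2 : Real.exp y ≤ (n : ℝ) := (Nat.le_ceil _).trans (by exact_mod_cast (le_max_right _ _).trans hn)
  have hy2 : (y : ℝ) ≤ Real.log n := by
    rw [Real.le_log_iff_exp_le ((Real.exp_pos _).trans_le hn2)]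
    exact hn2
  obtain ⟨G, hGA, hG, hG2⟩ := h n ((le_max_left _ _).trans hn) t hadm (fun j => by
    rw [pow_one]
    exact (hty j).trans hy2) A hA hAn hAc
  exact ⟨G, hGA, hG, fun a ha j => hcr _ _ _ _ (hG2 a ha j)⟩

end Pool.Agent.Results.MP_5046ca_nt.CrowdedWindowsSidonSets
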